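import Mathlib

/-!
# Strongly k-abelian powers: definitions and intermediate statements (packets)
-/

set_option autoImplicit false

namespace Pool.Agent.Helper18.SK

/-- The number of occurrences of the nonempty word `x` as a factor of `u`. -/
def occ {α : Type} [DecidableEq α] (x u : List α) : ℕ := u.tails.countP (fun t => x.isPrefixOf t)

/-- `k`-abelian equivalence. -/
def KEquiv {α : Type} [DecidableEq α] (k : ℕ) (u v : List α) : Prop :=
  ∀ x : List α, 1 ≤ x.length → x.length ≤ k → occ x u = occ x v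

/-- `u` is a strongly `k`-abelian `n`-th power. -/
def StrongPow {α : Type} [DecidableEq α] (k n : ℕ) (u : List α) : Prop :=
  u ≠ [] ∧ ∃ z : List α, z ≠ [] ∧ KEquiv k u (List.replicate n z).flatten

/-- `w` avoids strongly `k`-abelian `n`-th powers. -/
def Avoids {α : Type} [DecidableEq α] (k n : ℕ) (w : List α) : Prop :=
  ∀ u : List α, u <:+: w → ¬ StrongPow k n u

/-- The list of the factors of length `k` of `y`, from left to right. -/
def facs {α : Type} (k : ℕ) (y : List α) : List (List α) :=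
  (y.tails.filter (fun t => decide (k ≤ t.length))).map (List.take k)

/-- `l` is a walk from `p` to `q` in the directed multigraph with edge set `E`. -/
def IsWalk {V E : Type} (src tgt : E → V) : V → V → List E → Prop
  | p, q, [] => p = q
  | p, q, e :: l => src e = p ∧ IsWalk src tgt (tgt e) q l

/-- Source of a word of length `k` in the de Bruijn graph. -/
def bsrc {α : Type} (k : ℕ) (x : List α) : List α := x.take (k - 1)

/-- Target of a word of length `k` in the de Bruijn graph. -/
def btgt {α : Type} (x : List α) : List α := x.drop 1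

/-- EU. Euler's theorem for directed multigraphs (Hierholzer). -/
def GEuler : Prop :=
  ∀ (V E : Type) (src tgt : E → V) (M : Multiset E), M.map src = M.map tgt →
    (∀ e ∈ M, ∀ e' ∈ M, ∃ l : List E, IsWalk src tgt (tgt e) (src e') l ∧ ∀ a ∈ l, a ∈ M) →
    ∀ e₀ ∈ M, ∃ l : List E, IsWalk src tgt (src e₀) (src e₀) (e₀ :: l) ∧
      ((e₀ :: l : List E) : Multiset E) = M

/-- DV. If all multiplicities of a closed walk are divisible by `n` one can divide by `n`. -/
def GDiv : Prop :=
  ∀ (V E : Type) [DecidableEq E] (src tgt : E → V) (n : ℕ) (p : V) (W : List E), 1 ≤ n →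
    IsWalk src tgt p p W → (∀ a, n ∣ W.count a) → ∀ e ∈ W,
    ∃ l : List E, IsWalk src tgt (src e) (src e) (e :: l) ∧
      ∀ a, n * (e :: l).count a = W.count a

/-- W1. Elementary facts on the list of the factors of length `k`. -/
def GFacs : Prop :=
  ∀ (α : Type) [DecidableEq α] (k : ℕ), 1 ≤ k →
    (∀ x u : List α, x.length = k → occ x u = (facs k u).count x) ∧
    (∀ y : List α, ∀ x ∈ facs k y, x.length = k) ∧
    (∀ y : List α, (facs k y).length = y.length + 1 - k) ∧
    (∀ y : List α, k - 1 ≤ y.length →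
      IsWalk (bsrc k) btgt (y.take (k - 1)) (y.drop (y.length - (k - 1))) (facs k y)) ∧
    (∀ y₁ y₂ : List α, k - 1 ≤ y₂.length →
      facs k (y₁ ++ y₂) = facs k (y₁ ++ y₂.take (k - 1)) ++ facs k y₂) ∧
    (∀ y₁ y₂ : List α, k - 1 ≤ y₁.length →
      facs k (y₁ ++ y₂) = facs k y₁ ++ facs k (y₁.drop (y₁.length - (k - 1)) ++ y₂)) ∧
    (∀ u y : List α, u <:+: y → facs k u <:+: facs k y)

/-- W2. Every walk in the de Bruijn graph is spelled by a word. -/
def GSpell : Prop :=
  ∀ (α : Type) [DecidableEq α] (k : ℕ), 1 ≤ k → ∀ (p q : List α) (l : List (List α)),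
    p.length = k - 1 → (∀ x ∈ l, x.length = k) → IsWalk (bsrc k) btgt p q l →
    ∃ y : List α, y.length = l.length + (k - 1) ∧ y.take (k - 1) = p ∧ y.drop l.length = q ∧
      facs k y = l

/-- KE. `k`-abelian equivalence from the counts of the factors of length `k` and the prefix. -/
def GKE : Prop :=
  ∀ (α : Type) [DecidableEq α] (k : ℕ), 1 ≤ k → ∀ u v : List α, k - 1 ≤ u.length →
    k - 1 ≤ v.length → u.take (k - 1) = v.take (k - 1) →
    u.drop (u.length - (k - 1)) = v.drop (v.length - (k - 1)) →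
    (∀ x : List α, (facs k u).count x = (facs k v).count x) → KEquiv k u v

/-- PE. Factor counts of a power, closed up cyclically, are divisible by `n`. -/
def GPer : Prop :=
  ∀ (α : Type) [DecidableEq α] (k n : ℕ) (z x : List α), 1 ≤ k → 1 ≤ n → z ≠ [] →
    k - 1 ≤ n * z.length → x.length = k →
    n ∣ (facs k ((List.replicate n z).flatten ++ (List.replicate n z).flatten.take (k - 1))).count x

/-- TR. A closed walk in the de Bruijn graph whose multiplicities are divisible by `n` outside the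
spanning tree of the edges `v0`, `v ≠ 0 … 0`, has all multiplicities divisible by `n`. -/
def GTree : Prop :=
  ∀ (m k n : ℕ) (p : List (Fin (m + 1))) (l : List (List (Fin (m + 1)))), 1 ≤ k →
    p.length = k - 1 → (∀ x ∈ l, x.length = k) → IsWalk (bsrc k) btgt p p l →
    (∀ x : List (Fin (m + 1)), x.length = k →
      (∀ v : List (Fin (m + 1)), v ≠ List.replicate (k - 1) 0 → x ≠ v ++ [0]) → n ∣ l.count x) →
    ∀ x, n ∣ l.count x

/-- HA. The de Bruijn graph has a Hamiltonian cycle (a de Bruijn word). -/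
def GHam : Prop :=
  ∀ (m k : ℕ), 1 ≤ k → ∃ (p : List (Fin (m + 1))) (H : List (List (Fin (m + 1)))),
    IsWalk (bsrc k) btgt p p H ∧ H.Nodup ∧ (∀ x ∈ H, x.length = k) ∧
    H.length = (m + 1) ^ (k - 1) ∧ (H.map (bsrc k)).Nodup ∧
    ∀ v : List (Fin (m + 1)), v.length = k - 1 → v ∈ H.map (bsrc k)

/-- LW. Long walks all of whose nonempty pieces have an edge of small positive multiplicity,
built on a Hamiltonian cycle `H` and further edges `c`. -/
def GLong : Prop :=
  ∀ (V E : Type) [DecidableEq E] (src tgt : E → V) (N : ℕ) (p₀ : V) (H c : List E), 2 ≤ N →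
    IsWalk src tgt p₀ p₀ H → H.Nodup → 1 ≤ H.length → (H.map src).Nodup → c.Nodup →
    (∀ e ∈ c, e ∉ H ∧ src e ∈ H.map src ∧ tgt e ∈ H.map src) →
    ∀ p ∈ H.map src, ∀ q ∈ H.map src, ∃ l : List E, IsWalk src tgt p q l ∧
      (∀ a ∈ l, a ∈ H ∨ a ∈ c) ∧
      (H.length * (N - 1) + 1) * N ^ c.length ≤ l.length + 1 ∧
      ∀ l' : List E, l' <:+: l → l' ≠ [] → ∃ a, 1 ≤ l'.count a ∧ l'.count a ≤ N - 1

/-- UP. Upper bound. -/
def GUp : Prop :=
  ∀ (m k n : ℕ) (w : List (Fin (m + 1))), 1 ≤ k → 1 ≤ n → Avoids k n w →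
    w.length + 3 ≤ 2 * k + k ^ 2 * (m + 1) ^ (2 * k - 2) *
      n ^ ((m + 1) ^ k - (m + 1) ^ (k - 1) + 1)

/-- LO. Lower bound. -/
def GLow : Prop :=
  ∀ (m k n : ℕ), 1 ≤ k → k + 1 ≤ n → ∃ w : List (Fin (m + 1)), Avoids k n w ∧
    ((m + 1) ^ (k - 1) * (n - k) + 1) * (n - k + 1) ^ ((m + 1) ^ k - (m + 1) ^ (k - 1)) + k
      ≤ w.length + 2

end Pool.Agent.Helper18.SK
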