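import Mathlib
import Pool.Agent.Helper18.SK.Defs

/-!
# Strongly k-abelian powers: walks, chains
-/

set_option autoImplicit false

namespace Pool.Agent.Helper18.SK

section walk

variable {V E : Type} {src tgt : E → V}

theorem isWalk_nil {p q : V} : IsWalk src tgt p q [] ↔ p = q := Iff.rfl

theorem isWalk_cons {p q : V} {e : E} {l : List E} :
    IsWalk src tgt p q (e :: l) ↔ src e = p ∧ IsWalk src tgt (tgt e) q l := Iff.rfl

theorem isWalk_append {p q : V} {l₁ l₂ : List E} :
    IsWalk src tgt p q (l₁ ++ l₂) ↔ ∃ r, IsWalk src tgt p r l₁ ∧ IsWalk src tgt r q l₂ := by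
  induction l₁ generalizing p with
  | nil =>
    simp only [List.nil_append, isWalk_nil]
    constructor
    · intro h
      exact ⟨p, rfl, h⟩
    · rintro ⟨r, rfl, h⟩
      exact h
  | cons e l ih =>
    rw [List.cons_append, isWalk_cons, ih]
    constructor
    · rintro ⟨h1, r, h2, h3⟩
      exact ⟨r, ⟨h1, h2⟩, h3⟩
    · rintro ⟨r, ⟨h1, h2⟩, h3⟩
      exact ⟨h1, r, h2, h3⟩

theorem count_eq_count {E : Type} (b1 b2 : BEq E) (h1 : @LawfulBEq E b1) (h2 : @LawfulBEq E b2)
    (a : E) (l : List E) : @List.count E b1 a l = @List.count E b2 a l := by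
  have h : b1 = b2 := by
    cases b1 with
    | mk f =>
      cases b2 with
      | mk g =>
        congr 1
        funext x y
        have e1 : f x y = true ↔ x = y := @beq_iff_eq E ⟨f⟩ h1 x y
        have e2 : g x y = true ↔ x = y := @beq_iff_eq E ⟨g⟩ h2 x y
        rw [Bool.eq_iff_iff, e1, e2]
  subst h
  rfl

theorem gdiv_beq (hDiv : GDiv) [BEq E] [LawfulBEq E] (n : ℕ) (p : V) (W : List E) (hn : 1 ≤ n)
    (hW : IsWalk src tgt p p W) (hc : ∀ a, n ∣ W.count a) (e : E) (he : e ∈ W) :
    ∃ l : List E, IsWalk src tgt (src e) (src e) (e :: l) ∧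
      ∀ a, n * (e :: l).count a = W.count a := by
  classical
  obtain ⟨l, h1, h2⟩ := hDiv V E src tgt n p W hn hW (fun a => by
    rw [count_eq_count _ _ inferInstance inferInstance]
    exact hc a) e he
  refine ⟨l, h1, fun a => ?_⟩
  have h3 := h2 a
  have e1 : @List.count E (@instBEqOfDecidableEq E (Classical.propDecidable <| · = ·)) a (e :: l)
      = List.count a (e :: l) := count_eq_count _ _ inferInstance inferInstance _ _
  have e2 : @List.count E (@instBEqOfDecidableEq E (Classical.propDecidable <| · = ·)) a W
      = List.count a W := count_eq_count _ _ inferInstance inferInstance _ _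
  rw [← e1, ← e2]
  exact h3

/-- Return walks along a path from closed walks through its edges. -/
theorem exists_return [BEq E] [LawfulBEq E] (hDiv : GDiv) {n : ℕ} (hn : 1 ≤ n) :
    ∀ (P : List E) (a b : V) (W : ℕ → List E) (base : ℕ → V), IsWalk src tgt a b P →
      (∀ j < P.length, IsWalk src tgt (base j) (base j) (W j) ∧ (∀ x, n ∣ (W j).count x) ∧
        ∀ e ∈ P, e ∈ W j) →
      ∃ R : List E, IsWalk src tgt b a R ∧
        ∀ x, n * (R.count x + P.count x) = ∑ j ∈ Finset.range P.length, (W j).count x := by
  intro P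
  induction P with
  | nil =>
    intro a b W base h _
    refine ⟨[], ?_, fun x => by simp⟩
    rw [isWalk_nil] at h ⊢
    exact h.symm
  | cons e P ih =>
    intro a b W base h hW
    rw [isWalk_cons] at h
    obtain ⟨R, hR, hRc⟩ := ih (tgt e) b (fun j => W (j + 1)) (fun j => base (j + 1)) h.2 (by
      intro j hj
      obtain ⟨h1, h2, h3⟩ := hW (j + 1) (by simpa using hj)
      exact ⟨h1, h2, fun x hx => h3 x (List.mem_cons_of_mem _ hx)⟩)
    obtain ⟨h1, h2, h3⟩ := hW 0 (by simp)
    obtain ⟨l, hl, hlc⟩ := gdiv_beq hDiv n (base 0) (W 0) hn h1 h2 e (h3 e (by simp))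
    refine ⟨R ++ l, ?_, ?_⟩
    · rw [isWalk_append]
      refine ⟨tgt e, hR, ?_⟩
      rw [isWalk_cons] at hl
      rw [← h.1]
      exact hl.2
    · intro x
      rw [List.length_cons, Finset.sum_range_succ', ← hRc x, ← hlc x, List.count_append,
        List.count_cons, List.count_cons]
      ring

end walk

section words

variable {α : Type} [DecidableEq α]

/-- the closed factor list of a power -/
theorem facs_pow (hF : GFacs) {k : ℕ} (hk : 1 ≤ k) (z p : List α) (hp : p.length = k - 1)
    (hz : z.take (k - 1) = p) (n : ℕ) :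
    facs k ((List.replicate n z).flatten ++ p) = (List.replicate n (facs k (z ++ p))).flatten := by
  obtain ⟨-, -, hlen, -, h5, -, -⟩ := hF α k hk
  induction n with
  | zero =>
    have h1 : (facs k p).length = 0 := by
      rw [hlen, hp]
      omega
    simpa using List.length_eq_zero_iff.1 h1
  | succ n ih =>
    rw [List.replicate_succ, List.replicate_succ, List.flatten_cons, List.flatten_cons, ← ih,
      List.append_assoc]
    rw [h5 z ((List.replicate n z).flatten ++ p) (by simp [hp])]
    congr 3
    cases n with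
    | zero => simp [← hp]
    | succ n =>
      rw [List.replicate_succ, List.flatten_cons, List.append_assoc, List.take_append_of_le_length]
      · exact hz
      · have h1 : (z.take (k - 1)).length = k - 1 := by rw [hz, hp]
        rw [List.length_take] at h1
        omega

theorem take_drop_facs (hF : GFacs) {k : ℕ} (hk : 1 ≤ k) (w : List α) (i d : ℕ)
    (h : i + d + (k - 1) ≤ w.length) :
    facs k (w.take (i + d + (k - 1)))
      = facs k (w.take (i + (k - 1))) ++ facs k ((w.drop i).take (d + (k - 1))) := by
  obtain ⟨-, -, -, -, h5, -, -⟩ := hF α k hk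
  have h1 : w.take (i + d + (k - 1)) = w.take i ++ (w.drop i).take (d + (k - 1)) := by
    rw [add_assoc, List.take_add]
  have h2 : w.take (i + (k - 1)) = w.take i ++ ((w.drop i).take (d + (k - 1))).take (k - 1) := by
    rw [List.take_take, List.take_add]
    congr 2
    omega
  rw [h1, h5 _ _ (by rw [List.length_take, List.length_drop]; omega), h2]

end words

end Pool.Agent.Helper18.SK
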