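import Mathlib
import Pool.Agent.Helper18.SK.Basic

/-!
# Strongly k-abelian powers: a power from `k + 1` equivalent positions
-/

set_option autoImplicit false

namespace Pool.Agent.Helper18.SK

variable {α : Type} [DecidableEq α]

theorem core (hDiv : GDiv) (hF : GFacs) (hS : GSpell) (hKE : GKE) {k n : ℕ} (hk : 1 ≤ k)
    (hn : 1 ≤ n) (w : List α) (pos : ℕ → ℕ) (hpos : ∀ t < k, pos t + k ≤ pos (t + 1))
    (h0 : ∀ t ≤ k, k - 1 ≤ pos t) (h1 : ∀ t ≤ k, pos t + (k - 1) ≤ w.length)
    (win : List α) (hwin : ∀ t ≤ k, (w.drop (pos t - (k - 1))).take (2 * k - 2) = win)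
    (hcnt : ∀ t < k, ∀ x,
      n ∣ (facs k ((w.drop (pos t)).take (pos (t + 1) - pos t + (k - 1)))).count x) :
    ∃ u : List α, u <:+: w ∧ StrongPow k n u := by
  obtain ⟨hocc, hl, hlen, hwalk, h5, h6, h7⟩ := hF α k hk
  set W : ℕ → List (List α) := fun t =>
    facs k ((w.drop (pos t)).take (pos (t + 1) - pos t + (k - 1))) with hW
  set s := win.take (k - 1) with hs
  set p := win.drop (k - 1) with hp
  have hwl : win.length = 2 * k - 2 := by
    rw [← hwin 0 (by omega), List.length_take, List.length_drop]
    have := h0 0 (by omega)
    have := h1 0 (by omega)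
    omega
  have hsl : s.length = k - 1 := by
    rw [hs, List.length_take, hwl]
    omega
  have hpl : p.length = k - 1 := by
    rw [hp, List.length_drop, hwl]
    omega
  have hsp : s ++ p = win := List.take_append_drop _ _
  have hP : ∀ t ≤ k, (w.drop (pos t)).take (k - 1) = p := by
    intro t ht
    have := h0 t ht
    rw [hp, ← hwin t ht, List.drop_take, List.drop_drop]
    congr 1
    · omega
    · congr 1
      omega
  have hSs : ∀ t ≤ k, (w.drop (pos t - (k - 1))).take (k - 1) = s := by
    intro t ht
    rw [hs, ← hwin t ht, List.take_take]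
    congr 1
    omega
  -- the closed walks
  have hclosed : ∀ t < k, IsWalk (bsrc k) btgt p p (W t) := by
    intro t ht
    have e1 := hpos t ht
    have e2 := h1 (t + 1) (by omega)
    have hyl : ((w.drop (pos t)).take (pos (t + 1) - pos t + (k - 1))).length
        = pos (t + 1) - pos t + (k - 1) := by
      rw [List.length_take, List.length_drop]
      omega
    have h := hwalk ((w.drop (pos t)).take (pos (t + 1) - pos t + (k - 1))) (by rw [hyl]; omega)
    have e3 : ((w.drop (pos t)).take (pos (t + 1) - pos t + (k - 1))).take (k - 1) = p := by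
      rw [List.take_take, ← hP t (by omega)]
      congr 1
      omega
    have e4 : ((w.drop (pos t)).take (pos (t + 1) - pos t + (k - 1))).drop
        (((w.drop (pos t)).take (pos (t + 1) - pos t + (k - 1))).length - (k - 1)) = p := by
      rw [hyl, List.drop_take, List.drop_drop, ← hP (t + 1) (by omega)]
      congr 1
      · omega
      · congr 1
        omega
    rw [e3, e4] at h
    exact h
  have hmem : ∀ t < k, ∀ e ∈ facs k win, e ∈ W t := by
    intro t ht e he
    have e1 := hpos t ht
    have e2 := h1 (t + 1) (by omega)
    have hinf : win <:+: (w.drop (pos t)).take (pos (t + 1) - pos t + (k - 1)) := by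
      have e5 : win = ((w.drop (pos t)).take (pos (t + 1) - pos t + (k - 1))).drop
          (pos (t + 1) - pos t - (k - 1)) := by
        rw [← hwin (t + 1) (by omega), List.drop_take, List.drop_drop]
        congr 1
        · omega
        · congr 1
          omega
      rw [e5]
      exact (List.drop_suffix _ _).isInfix
    exact (h7 _ _ hinf).subset he
  have hPl : (facs k win).length = k - 1 := by
    rw [hlen, hwl]
    omega
  have hPw : IsWalk (bsrc k) btgt s p (facs k win) := by
    have h := hwalk win (by rw [hwl]; omega)
    rw [show win.length - (k - 1) = k - 1 by rw [hwl]; omega] at h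
    exact h
  obtain ⟨R, hR, hRc⟩ := exists_return hDiv hn (facs k win) s p W (fun _ => p) hPw (by
    intro j hj
    rw [hPl] at hj
    exact ⟨hclosed j (by omega), hcnt j (by omega), hmem j (by omega)⟩)
  rw [hPl] at hRc
  -- the last closed walk
  obtain ⟨e, rest, hrest⟩ : ∃ e rest, W (k - 1) = e :: rest := by
    have hWl : (W (k - 1)).length = pos (k - 1 + 1) - pos (k - 1) := by
      rw [hW]
      simp only
      rw [hlen, List.length_take, List.length_drop]
      have := hpos (k - 1) (by omega)
      have := h1 (k - 1 + 1) (by omega)
      omega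
    have := hpos (k - 1) (by omega)
    rcases hcase : W (k - 1) with _ | ⟨e, rest⟩
    · rw [hcase, List.length_nil] at hWl
      omega
    · exact ⟨e, rest, rfl⟩
  have hsrc : bsrc k e = p := by
    have h := hclosed (k - 1) (by omega)
    rw [hrest, isWalk_cons] at h
    exact h.1
  obtain ⟨l, hl0, hlc⟩ := gdiv_beq hDiv n p (W (k - 1)) hn (hclosed (k - 1) (by omega))
    (hcnt (k - 1) (by omega)) e (by rw [hrest]; exact List.mem_cons_self)
  rw [hsrc] at hl0
  -- spelling
  have hZw : IsWalk (bsrc k) btgt p s ((e :: l) ++ R) := isWalk_append.2 ⟨p, hl0, hR⟩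
  have hZlen : ∀ x ∈ (e :: l) ++ R, x.length = k := by
    intro x hx
    rw [List.mem_append] at hx
    rcases hx with hx | hx
    · have h2 : 0 < (e :: l).count x := List.count_pos_iff.2 hx
      have h3 : 0 < (W (k - 1)).count x := by
        rw [← hlc x]
        positivity
      exact hl _ x (List.count_pos_iff.1 h3)
    · have h2 : 0 < R.count x := List.count_pos_iff.2 hx
      have h3 : 0 < ∑ j ∈ Finset.range (k - 1), (W j).count x := by
        rw [← hRc x]
        positivity
      obtain ⟨j, -, hj⟩ := Finset.exists_ne_zero_of_sum_ne_zero h3.ne'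
      exact hl _ x (List.count_pos_iff.1 (Nat.pos_of_ne_zero hj))
  obtain ⟨z, hzl, hzp, hzs, hzf⟩ := hS α k hk p s _ hpl hZlen hZw
  have hzl1 : 1 ≤ z.length - (k - 1) := by
    rw [hzl]
    simp only [List.cons_append, List.length_cons]
    omega
  have hz0 : z ≠ [] := by
    intro h
    rw [h] at hzl1
    simp at hzl1
  have hzs' : z.drop (z.length - (k - 1)) = s := by
    rw [← hzs]
    congr 1
    omega
  have hZp : facs k (z ++ p) = (e :: l) ++ R ++ facs k win := by
    rw [h6 z p (by omega), hzf, hzs', hsp]
  -- the factor
  have hmono : ∀ t ≤ k, pos 0 + k * t ≤ pos t := by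
    intro t ht
    induction t with
    | zero => simp
    | succ t ih =>
      have := ih (by omega)
      have := hpos t (by omega)
      rw [Nat.mul_succ]
      omega
  have hkk : pos 0 + k ≤ pos k := by
    have h2 := hmono k le_rfl
    nlinarith
  set D := pos k - pos 0 with hD
  set u := (w.drop (pos 0)).take D with hu
  have hul : u.length = D := by
    rw [hu, List.length_take, List.length_drop]
    have := h1 k le_rfl
    omega
  have hup : u.take (k - 1) = p := by
    rw [hu, List.take_take, ← hP 0 (by omega)]
    congr 1
    omega
  have hus : u.drop (u.length - (k - 1)) = s := by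
    rw [hul, hu, List.drop_take, List.drop_drop, ← hSs k le_rfl]
    congr 1
    · omega
    · congr 1
      omega
  have hupp : u ++ p = (w.drop (pos 0)).take (D + (k - 1)) := by
    rw [List.take_add, List.drop_drop, ← hP k le_rfl, hu]
    congr 3
    omega
  have hcount : ∀ x, (facs k (u ++ p)).count x = ∑ j ∈ Finset.range k, (W j).count x := by
    intro x
    have htel : ∀ t ≤ k, (facs k (w.take (pos t + (k - 1)))).count x
        = (facs k (w.take (pos 0 + (k - 1)))).count x + ∑ j ∈ Finset.range t, (W j).count x := by
      intro t ht
      induction t with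
      | zero => simp
      | succ t ih =>
        have h2 := hpos t (by omega)
        have h3 := h1 (t + 1) ht
        have h4 := take_drop_facs hF hk w (pos t) (pos (t + 1) - pos t) (by omega)
        rw [show pos t + (pos (t + 1) - pos t) + (k - 1) = pos (t + 1) + (k - 1) by omega] at h4
        rw [h4, List.count_append, ih (by omega), Finset.sum_range_succ]
        simp only [hW]
        ring
    have h2 := htel k le_rfl
    have h3 := h1 k le_rfl
    have h4 := take_drop_facs hF hk w (pos 0) D (by omega)
    rw [show pos 0 + D + (k - 1) = pos k + (k - 1) by omega] at h4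
    rw [h4, List.count_append] at h2
    rw [hupp]
    omega
  have hfu : facs k (u ++ p) = facs k u ++ facs k win := by
    rw [h6 u p (by omega), hus, hsp]
  -- the power
  set y := (List.replicate n z).flatten with hy
  have hyl : y.length = n * z.length := by
    rw [hy]
    simp
  have hyk : k - 1 ≤ y.length := by
    rw [hyl]
    have : 1 * z.length ≤ n * z.length := Nat.mul_le_mul_right _ hn
    omega
  obtain ⟨n', rfl⟩ : ∃ n', n = n' + 1 := ⟨n - 1, by omega⟩
  have hyp : y.take (k - 1) = p := by
    rw [hy, List.replicate_succ, List.flatten_cons, List.take_append_of_le_length (by omega), hzp]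
  have hys : y.drop (y.length - (k - 1)) = s := by
    have h2 : y = (List.replicate n' z).flatten ++ z := by
      rw [hy, List.replicate_succ', List.flatten_append]
      simp
    rw [h2, List.length_append, Nat.add_sub_assoc (by omega), List.drop_append]
    simp only [List.length_flatten, List.map_replicate, List.sum_replicate, smul_eq_mul]
    rw [List.drop_eq_nil_of_le (by simp), List.nil_append]
    rw [← hzs']
    congr 1
    omega
  have hfy : facs k (y ++ p) = facs k y ++ facs k win := by
    rw [h6 y p hyk, hys, hsp]
  have hfy' : facs k (y ++ p) = (List.replicate (n' + 1) (facs k (z ++ p))).flatten :=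
    facs_pow hF hk z p hpl hzp _
  refine ⟨u, ?_, ?_, z, hz0, ?_⟩
  · rw [hu]
    exact (List.take_prefix _ _).isInfix.trans (List.drop_suffix _ _).isInfix
  · intro h
    rw [h] at hul
    simp only [List.length_nil] at hul
    omega
  · refine hKE α k hk u y (by omega) hyk (hup.trans hyp.symm) (hus.trans hys.symm) (fun x => ?_)
    have h2 : (facs k u).count x + (facs k win).count x
        = ∑ j ∈ Finset.range k, (W j).count x := by
      rw [← hcount x, hfu, List.count_append]
    have h3 : (facs k y).count x + (facs k win).count x
        = (n' + 1) * ((e :: l).count x + R.count x + (facs k win).count x) := by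
      rw [← List.count_append, ← hfy, hfy', hZp]
      simp only [List.count_flatten, List.map_replicate, List.sum_replicate, smul_eq_mul,
        List.count_append]
    have h4 : ∑ j ∈ Finset.range k, (W j).count x
        = (∑ j ∈ Finset.range (k - 1), (W j).count x) + (W (k - 1)).count x := by
      obtain ⟨k', rfl⟩ : ∃ k', k = k' + 1 := ⟨k - 1, by omega⟩
      rw [Finset.sum_range_succ]
      rfl
    have h5' := hRc x
    have h6' := hlc x
    rw [h4, ← h5', ← h6'] at h2
    have h7' : (n' + 1) * (R.count x + (facs k win).count x) + (n' + 1) * (e :: l).count x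
        = (n' + 1) * ((e :: l).count x + R.count x + (facs k win).count x) := by ring
    omega

end Pool.Agent.Helper18.SK
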