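import Mathlib
import Pool.Agent.Helper18.SK.Basic

/-!
# Strongly k-abelian powers: the lower bound
-/

set_option autoImplicit false

namespace Pool.Agent.Helper18.SK

theorem low (hF : GFacs) (hS : GSpell) (hPer : GPer) (hHam : GHam) (hLW : GLong) : GLow := by
  classical
  intro m k n hk hn
  obtain ⟨p, H, hHw, hHn, hHk, hHl, hHs, hHc⟩ := hHam m k hk
  obtain ⟨hocc, hl, hlen, hwalk, h5, h6, h7⟩ := hF (Fin (m + 1)) k hk
  let S : Finset (List (Fin (m + 1))) :=
    (Finset.univ : Finset (Fin k → Fin (m + 1))).image List.ofFn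
  have hS1 : S.card = (m + 1) ^ k := by
    rw [Finset.card_image_of_injective _ List.ofFn_injective, Finset.card_univ, Fintype.card_pi]
    simp
  have hSmem : ∀ x : List (Fin (m + 1)), x ∈ S ↔ x.length = k := by
    intro x
    simp only [S, Finset.mem_image, Finset.mem_univ, true_and]
    constructor
    · rintro ⟨y, rfl⟩
      exact List.length_ofFn
    · intro h
      refine ⟨fun j => x.get (j.cast h.symm), ?_⟩
      apply List.ext_getElem
      · rw [List.length_ofFn, h]
      · intro j hj1 hj2
        rw [List.getElem_ofFn]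
        simp only [List.get_eq_getElem, Fin.val_cast]
  have hHS : H.toFinset ⊆ S := by
    intro x hx
    rw [List.mem_toFinset] at hx
    rw [hSmem]
    exact hHk x hx
  have hHcard : H.toFinset.card = (m + 1) ^ (k - 1) := by
    rw [List.toFinset_card_of_nodup hHn, hHl]
  have hH1 : 1 ≤ H.length := by
    rw [hHl]
    exact Nat.one_le_pow _ _ (by omega)
  let c := (S \ H.toFinset).toList
  have hcl : c.length = (m + 1) ^ k - (m + 1) ^ (k - 1) := by
    simp only [c]
    rw [Finset.length_toList, Finset.card_sdiff_of_subset hHS, hS1, hHcard]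
  have hcm : ∀ e, e ∈ c → e.length = k ∧ e ∉ H := by
    intro e he
    simp only [c] at he
    rw [Finset.mem_toList, Finset.mem_sdiff, hSmem, List.mem_toFinset] at he
    exact he
  have hv : ∀ v : List (Fin (m + 1)), v.length = k - 1 → v ∈ H.map (bsrc k) := hHc
  have hv0 : List.replicate (k - 1) (0 : Fin (m + 1)) ∈ H.map (bsrc k) :=
    hv _ (by rw [List.length_replicate])
  obtain ⟨l, hlw, hlm, hll, hlinf⟩ := hLW (List (Fin (m + 1))) (List (Fin (m + 1))) (bsrc k) btgt
    (n - k + 1) p H c (by omega) hHw hHn hH1 hHs (Finset.nodup_toList _) (by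
      intro e he
      obtain ⟨h1, h2⟩ := hcm e he
      refine ⟨h2, hv _ ?_, hv _ ?_⟩
      · rw [bsrc, List.length_take]
        omega
      · rw [btgt, List.length_drop]
        omega) _ hv0 _ hv0
  have hlk : ∀ x ∈ l, x.length = k := by
    intro x hx
    rcases hlm x hx with h | h
    · exact hHk x h
    · exact (hcm x h).1
  obtain ⟨w, hw1, hw2, hw3, hw4⟩ := hS (Fin (m + 1)) k hk _ _ l (by rw [List.length_replicate])
    hlk hlw
  refine ⟨w, ?_, ?_⟩
  swap
  · rw [hHl, hcl] at hll
    rw [show n - k + 1 - 1 = n - k by omega] at hll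
    rw [hw1]
    omega
  intro u hu hpow
  obtain ⟨hu0, z, hz0, hK⟩ := hpow
  set y := (List.replicate n z).flatten with hy
  have hzl : 1 ≤ z.length := List.length_pos_iff.2 hz0
  have hyl : y.length = n * z.length := by
    rw [hy]
    simp
  have hyn : n ≤ y.length := by
    rw [hyl]
    nlinarith
  have hceq : ∀ x : List (Fin (m + 1)), x.length = k →
      (facs k u).count x = (facs k y).count x := by
    intro x hx
    rw [← hocc x u hx, ← hocc x y hx]
    exact hK x (by omega) (by omega)
  have hne : facs k u ≠ [] := by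
    have h1 : (facs k y).length ≠ 0 := by
      rw [hlen]
      omega
    obtain ⟨x, hx⟩ := List.exists_mem_of_length_pos (Nat.pos_of_ne_zero h1)
    have h2 : 0 < (facs k u).count x := by
      rw [hceq x (hl y x hx)]
      exact List.count_pos_iff.2 hx
    intro h
    rw [h, List.count_nil] at h2
    exact lt_irrefl 0 h2
  obtain ⟨a, ha1, ha2⟩ := hlinf (facs k u) (by rw [← hw4]; exact h7 u w hu) hne
  rw [count_eq_count _ List.instBEq inferInstance inferInstance] at ha1 ha2
  have hak : a.length = k := hl u a (List.count_pos_iff.1 ha1)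
  have hdiv := hPer (Fin (m + 1)) k n z a hk (by omega) hz0 (by rw [← hyl]; omega) hak
  rw [← hy, h6 y (y.take (k - 1)) (by omega), List.count_append, ← hceq a hak] at hdiv
  have hc2 : (facs k (y.drop (y.length - (k - 1)) ++ y.take (k - 1))).count a ≤ k - 1 := by
    refine List.count_le_length.trans ?_
    rw [hlen, List.length_append, List.length_drop, List.length_take]
    omega
  have h8 := Nat.le_of_dvd (by omega) hdiv
  omega

end Pool.Agent.Helper18.SK
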