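import Mathlib
import Pool.Agent.Helper18.SK.Core

/-!
# Strongly k-abelian powers: the upper bound
-/

set_option autoImplicit false

namespace Pool.Agent.Helper18.SK

/-- non-tree edges -/
def NT (m k' : ℕ) (x : Fin (k' + 1) → Fin (m + 1)) : Prop :=
  ¬ (x (Fin.last k') = 0 ∧ Fin.init x ≠ fun _ => (0 : Fin (m + 1)))

noncomputable instance (m k' : ℕ) : Fintype {x : Fin (k' + 1) → Fin (m + 1) // NT m k' x} :=
  Fintype.ofFinite _

theorem card_NT (m k' : ℕ) :
    Fintype.card {x : Fin (k' + 1) → Fin (m + 1) // NT m k' x}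
      = (m + 1) ^ (k' + 1) - (m + 1) ^ k' + 1 := by
  classical
  have h1 : Fintype.card {x : Fin (k' + 1) → Fin (m + 1) // NT m k' x}
      = Fintype.card (Fin (k' + 1) → Fin (m + 1)) - Fintype.card {x : Fin (k' + 1) → Fin (m + 1) //
        (x (Fin.last k') = 0 ∧ Fin.init x ≠ fun _ => (0 : Fin (m + 1)))} := by
    rw [← Fintype.card_subtype_compl]
    exact Fintype.card_congr (Equiv.refl _)
  have h2 : Fintype.card {x : Fin (k' + 1) → Fin (m + 1) //
        (x (Fin.last k') = 0 ∧ Fin.init x ≠ fun _ => (0 : Fin (m + 1)))}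
      = Fintype.card {v : Fin k' → Fin (m + 1) // v ≠ fun _ => (0 : Fin (m + 1))} := by
    refine Fintype.card_congr ⟨fun x => ⟨Fin.init x.1, x.2.2⟩,
      fun v => ⟨Fin.snoc v.1 0, by simp, by rw [Fin.init_snoc]; exact v.2⟩, ?_, ?_⟩
    · rintro ⟨x, hx⟩
      simp only [Subtype.mk.injEq]
      rw [← hx.1, Fin.snoc_init_self]
    · rintro ⟨v, hv⟩
      simp
  have h3 : Fintype.card {v : Fin k' → Fin (m + 1) // v ≠ fun _ => (0 : Fin (m + 1))}
      = (m + 1) ^ k' - 1 := by
    rw [Fintype.card_subtype_compl (fun v : Fin k' → Fin (m + 1) => v = fun _ => 0)]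
    simp
  rw [h1, h2, h3]
  simp only [Fintype.card_pi, Fintype.card_fin, Finset.prod_const, Finset.card_univ]
  have h4 : 1 ≤ (m + 1) ^ k' := Nat.one_le_pow _ _ (by omega)
  have h5 : (m + 1) ^ k' ≤ (m + 1) ^ (k' + 1) := Nat.pow_le_pow_right (by omega) (by omega)
  omega

theorem closed_walk {α : Type} [DecidableEq α] (hF : GFacs) {k : ℕ} (hk : 1 ≤ k) (w : List α)
    (i d : ℕ) (p : List α) (h : i + d + (k - 1) ≤ w.length) (h1 : (w.drop i).take (k - 1) = p)
    (h2 : (w.drop (i + d)).take (k - 1) = p) :
    IsWalk (bsrc k) btgt p p (facs k ((w.drop i).take (d + (k - 1)))) := by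
  obtain ⟨-, -, -, hwalk, -, -, -⟩ := hF α k hk
  have hyl : ((w.drop i).take (d + (k - 1))).length = d + (k - 1) := by
    rw [List.length_take, List.length_drop]
    omega
  have h3 := hwalk ((w.drop i).take (d + (k - 1))) (by rw [hyl]; omega)
  have e3 : ((w.drop i).take (d + (k - 1))).take (k - 1) = p := by
    rw [List.take_take, ← h1]
    congr 1
    omega
  have e4 : ((w.drop i).take (d + (k - 1))).drop
      (((w.drop i).take (d + (k - 1))).length - (k - 1)) = p := by
    rw [hyl, List.drop_take, List.drop_drop, ← h2]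
    congr 1
    · omega
    · congr 1
      omega
  rw [e3, e4] at h3
  exact h3

theorem up (hDiv : GDiv) (hF : GFacs) (hS : GSpell) (hKE : GKE) (hT : GTree) : GUp := by
  classical
  intro m k n w hk hn hav
  by_contra hcon
  push Not at hcon
  obtain ⟨k', rfl⟩ : ∃ k', k = k' + 1 := ⟨k - 1, by omega⟩
  have : NeZero n := ⟨by omega⟩
  set Q := (m + 1) ^ (2 * (k' + 1) - 2) * n ^ ((m + 1) ^ (k' + 1) - (m + 1) ^ k' + 1) with hQ
  have hcon' : 2 * (k' + 1) + (k' + 1) ^ 2 * Q < w.length + 3 := by
    rw [hQ, ← mul_assoc]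
    simpa using hcon
  have hQ1 : 1 ≤ Q := Nat.one_le_iff_ne_zero.2 (by positivity)
  have hkQ : 1 ≤ (k' + 1) ^ 2 * Q := Nat.one_le_iff_ne_zero.2 (by positivity)
  let φ : ℕ → (Fin (2 * (k' + 1) - 2) → Fin (m + 1)) ×
      ({x : Fin (k' + 1) → Fin (m + 1) // NT m k' x} → ZMod n) := fun i =>
    (fun j => w.getD (i - k' + j) 0,
      fun x => ((facs (k' + 1) (w.take (i + k'))).count (List.ofFn x.1) : ZMod n))
  have hcard : Fintype.card ((Fin (2 * (k' + 1) - 2) → Fin (m + 1)) ×
      ({x : Fin (k' + 1) → Fin (m + 1) // NT m k' x} → ZMod n)) = Q := by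
    rw [Fintype.card_prod, Fintype.card_pi, Fintype.card_pi]
    simp only [Fintype.card_fin, Finset.prod_const, Finset.card_univ, ZMod.card]
    rw [card_NT]
  obtain ⟨y, -, hy⟩ := Finset.exists_lt_card_fiber_of_mul_lt_card_of_maps_to
    (s := Finset.Icc k' (w.length - k')) (t := Finset.univ) (f := φ) (n := (k' + 1) ^ 2)
    (fun _ _ => Finset.mem_univ _) (by
      rw [Finset.card_univ, hcard, Nat.card_Icc, mul_comm]
      omega)
  set Fb := {x ∈ Finset.Icc k' (w.length - k') | φ x = y} with hFb
  let e := Fb.orderEmbOfFin rfl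
  have he : ∀ j, e j ∈ Fb := fun j => Finset.orderEmbOfFin_mem _ _ _
  have hstep : ∀ (d i : ℕ) (h : i + d < Fb.card), e ⟨i, by omega⟩ + d ≤ e ⟨i + d, h⟩ := by
    intro d
    induction d with
    | zero => intro i h; simp
    | succ d ih =>
      intro i h
      have h1 := ih i (by omega)
      have h2 : e ⟨i + d, by omega⟩ < e ⟨i + (d + 1), h⟩ := by
        apply e.strictMono
        simp only [Fin.mk_lt_mk]
        omega
      omega
  have hkt : ∀ t ≤ k' + 1, (k' + 1) * t < Fb.card := by
    intro t ht
    calc (k' + 1) * t ≤ (k' + 1) * (k' + 1) := Nat.mul_le_mul_left _ ht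
      _ = (k' + 1) ^ 2 := by ring
      _ < Fb.card := hy
  let pos : ℕ → ℕ := fun t => if h : (k' + 1) * t < Fb.card then e ⟨(k' + 1) * t, h⟩ else 0
  have hposdef : ∀ t (h : t ≤ k' + 1), pos t = e ⟨(k' + 1) * t, hkt t h⟩ := by
    intro t h
    simp only [pos]
    rw [dif_pos (hkt t h)]
  have hposmem : ∀ t ≤ k' + 1, k' ≤ pos t ∧ pos t ≤ w.length - k' ∧ φ (pos t) = y := by
    intro t ht
    have h := he ⟨(k' + 1) * t, hkt t ht⟩
    rw [← hposdef t ht, hFb, Finset.mem_filter, Finset.mem_Icc] at h
    exact ⟨h.1.1, h.1.2, h.2⟩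
  have hposstep : ∀ t < k' + 1, pos t + (k' + 1) ≤ pos (t + 1) := by
    intro t ht
    rw [hposdef t (by omega), hposdef (t + 1) (by omega)]
    have h := hstep (k' + 1) ((k' + 1) * t) (by
      have := hkt (t + 1) (by omega)
      rw [Nat.mul_succ] at this
      exact this)
    exact h
  have hlen : ∀ t ≤ k' + 1, pos t + k' ≤ w.length := by
    intro t ht
    have := hposmem t ht
    omega
  have hwin : ∀ t ≤ k' + 1, (w.drop (pos t - k')).take (2 * (k' + 1) - 2)
      = (w.drop (pos 0 - k')).take (2 * (k' + 1) - 2) := by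
    intro t ht
    have h1 := hposmem t ht
    have h2 := hposmem 0 (by omega)
    have h3 := hlen t ht
    have h4 := hlen 0 (by omega)
    have h5 : φ (pos t) = φ (pos 0) := h1.2.2.trans h2.2.2.symm
    apply List.ext_getElem
    · rw [List.length_take, List.length_take, List.length_drop, List.length_drop]
      omega
    · intro j hj1 hj2
      have hj : j < 2 * (k' + 1) - 2 := by
        rw [List.length_take] at hj1
        omega
      have h6 := congrFun (congrArg Prod.fst h5) ⟨j, hj⟩
      simp only [φ] at h6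
      rw [List.getElem_take, List.getElem_take, List.getElem_drop, List.getElem_drop]
      rw [List.getD_eq_getElem _ _ (by omega), List.getD_eq_getElem _ _ (by omega)] at h6
      exact h6
  have hP : ∀ t ≤ k' + 1, (w.drop (pos t)).take k' = (w.drop (pos 0)).take k' := by
    intro t ht
    have h1 := hposmem t ht
    have h2 := hposmem 0 (by omega)
    have h3 := congrArg (List.drop k') (hwin t ht)
    rw [List.drop_take, List.drop_take, List.drop_drop, List.drop_drop] at h3
    rw [show pos t - k' + k' = pos t by omega, show pos 0 - k' + k' = pos 0 by omega,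
      show 2 * (k' + 1) - 2 - k' = k' by omega] at h3
    exact h3
  have hcnt : ∀ t < k' + 1, ∀ x,
      n ∣ (facs (k' + 1) ((w.drop (pos t)).take (pos (t + 1) - pos t + k'))).count x := by
    intro t ht
    have h1 := hposmem t (by omega)
    have h2 := hposmem (t + 1) (by omega)
    have h3 := hposstep t ht
    have h4 := hlen (t + 1) (by omega)
    obtain ⟨-, hl, -, -, -, -, -⟩ := hF (Fin (m + 1)) (k' + 1) (by omega)
    refine hT m (k' + 1) n ((w.drop (pos 0)).take k') _ (by omega) ?_ (hl _) ?_ ?_
    · rw [List.length_take, List.length_drop]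
      have := hlen 0 (by omega)
      omega
    · have h := closed_walk hF (k := k' + 1) (by omega) w (pos t) (pos (t + 1) - pos t)
        ((w.drop (pos 0)).take k') (by omega) (hP t (by omega)) (by
          rw [show pos t + (pos (t + 1) - pos t) = pos (t + 1) by omega]
          exact hP (t + 1) (by omega))
      exact h
    · intro x hxl hx
      have h5 : φ (pos t) = φ (pos (t + 1)) := h1.2.2.trans h2.2.2.symm
      let x' : Fin (k' + 1) → Fin (m + 1) := fun j => x.get (j.cast hxl.symm)
      have hx' : List.ofFn x' = x := by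
        apply List.ext_getElem
        · rw [List.length_ofFn, hxl]
        · intro j hj1 hj2
          rw [List.getElem_ofFn]
          simp only [x', List.get_eq_getElem, Fin.val_cast]
      have hNT : NT m k' x' := by
        rintro ⟨e1, e2⟩
        have e3 : x = List.ofFn (Fin.init x') ++ [0] := by
          rw [← hx', ← e1]
          rw [List.ofFn_succ', List.concat_eq_append]
          rfl
        refine hx (List.ofFn (Fin.init x')) ?_ e3
        intro e4
        apply e2
        have e5 : List.replicate k' (0 : Fin (m + 1)) = List.ofFn (fun _ : Fin k' => 0) := by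
          rw [List.ofFn_const]
        rw [show k' + 1 - 1 = k' by omega, e5] at e4
        exact List.ofFn_injective e4
      have h6 := congrFun (congrArg Prod.snd h5) ⟨x', hNT⟩
      simp only [φ] at h6
      rw [hx'] at h6
      have h7 := take_drop_facs hF (k := k' + 1) (by omega) w (pos t) (pos (t + 1) - pos t)
        (by omega)
      rw [show pos t + (pos (t + 1) - pos t) + (k' + 1 - 1) = pos (t + 1) + k' by omega,
        show k' + 1 - 1 = k' by omega] at h7
      rw [h7, List.count_append, Nat.cast_add] at h6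
      have h8 : ((facs (k' + 1) ((w.drop (pos t)).take (pos (t + 1) - pos t + k'))).count x :
          ZMod n) = 0 := by
        have := h6.symm
        rwa [add_eq_left] at this
      exact (ZMod.natCast_eq_zero_iff _ _).1 h8
  obtain ⟨u, hu, hpow⟩ := core hDiv hF hS hKE (k := k' + 1) (n := n) (by omega) hn w pos hposstep
    (fun t ht => (hposmem t ht).1) hlen _ hwin hcnt
  exact hav u hu hpow

end Pool.Agent.Helper18.SK
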