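import Mathlib
import Pool.Agent.Helper18.SK.Up
import Pool.Agent.Helper18.SK.Low
import Pool.Agent.Helper11.SK.KE
import Pool.Agent.Helper15.SK.DV
import Pool.Agent.Helper16.SK.EU
import Pool.Agent.Helper25.SK.LW
import Pool.Agent.Helper26.SK.TR
import Pool.Agent.Helper39.SK.HA
import Pool.Agent.Helper54.SK.W2
import Pool.Agent.Helper58.SK.W1
import Pool.Agent.Helper74.SK.PE

/-!
# Strongly k-abelian powers: final statements
-/

set_option autoImplicit false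

namespace Pool.Agent.Helper18.SK

theorem gup : GUp :=
  up (Helper15.SK.dv Helper16.SK.eu) PkW1.w1 w2 Helper11.SK.ke Helper26.SK.tr

theorem glow : GLow :=
  low PkW1.w1 w2 Helper74.SK.pe (Helper39.SK.ha Helper16.SK.eu) Helper25.SK.lw

theorem main (m k n : ℕ) (hm : 1 ≤ m) (hk : 1 ≤ k) (hn : 2 ≤ n) :
    ∃ L : ℕ, IsGreatest {ℓ | ∃ w : List (Fin m), w.length = ℓ ∧ Avoids k n w} L ∧
      L + 3 ≤ 2 * k + k ^ 2 * m ^ (2 * k - 2) * n ^ (m ^ k - m ^ (k - 1) + 1) ∧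
      (k + 1 ≤ n → (m ^ (k - 1) * (n - k) + 1) * (n - k + 1) ^ (m ^ k - m ^ (k - 1)) + k
        ≤ L + 2) ∧
      (k = 1 → L + 1 = n ^ m) := by
  classical
  obtain ⟨m', rfl⟩ : ∃ m', m = m' + 1 := ⟨m - 1, by omega⟩
  set A := {ℓ | ∃ w : List (Fin (m' + 1)), w.length = ℓ ∧ Avoids k n w} with hA
  have hne : A.Nonempty := by
    refine ⟨0, [], rfl, ?_⟩
    intro u hu hp
    exact hp.1 (List.eq_nil_of_infix_nil hu)
  have hup : ∀ ℓ ∈ A, ℓ + 3 ≤ 2 * k + k ^ 2 * (m' + 1) ^ (2 * k - 2) *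
      n ^ ((m' + 1) ^ k - (m' + 1) ^ (k - 1) + 1) := by
    rintro ℓ ⟨w, rfl, hw⟩
    exact gup m' k n w hk (by omega) hw
  have hbdd : BddAbove A := ⟨2 * k + k ^ 2 * (m' + 1) ^ (2 * k - 2) *
      n ^ ((m' + 1) ^ k - (m' + 1) ^ (k - 1) + 1), fun ℓ hℓ => by
        have := hup ℓ hℓ
        omega⟩
  have hL : sSup A ∈ A := Nat.sSup_mem hne hbdd
  have hlow : k + 1 ≤ n → ((m' + 1) ^ (k - 1) * (n - k) + 1) *
      (n - k + 1) ^ ((m' + 1) ^ k - (m' + 1) ^ (k - 1)) + k ≤ sSup A + 2 := by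
    intro hkn
    obtain ⟨w, hw1, hw2⟩ := glow m' k n hk hkn
    have h1 : w.length ≤ sSup A := le_csSup hbdd ⟨w, rfl, hw1⟩
    omega
  refine ⟨sSup A, ⟨hL, fun ℓ hℓ => le_csSup hbdd hℓ⟩, hup _ hL, hlow, ?_⟩
  rintro rfl
  have h1 := hup _ hL
  have h2 := hlow (by omega)
  simp only [pow_one, one_mul, Nat.sub_self, pow_zero, mul_one, one_pow] at h1 h2
  have h3 : m' + 1 - 1 + 1 = m' + 1 := by omega
  rw [h3] at h1
  have h4 : n - 1 + 1 = n := by omega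
  rw [h4] at h2
  have h5 : n * n ^ (m' + 1 - 1) = n ^ (m' + 1) := by
    rw [show m' + 1 - 1 = m' by omega, pow_succ, mul_comm]
  rw [h5] at h2
  omega

end Pool.Agent.Helper18.SK
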